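import Pool.Agent.Helper46.T6.Stmts

set_option autoImplicit false

/-!
Module L_PERMT of the T6 plan.
-/

namespace Pool.Agent.Helper54.T6

open Finset Pool.Agent.Helper15.T6 Pool.Agent.Helper46.T6

theorem st_PERMT : ST_PERMT := by
  intro R _ d J J' _ _ _ _ e x
  unfold TJ
  have key : ∀ F : (J → Equiv.Perm (Fin d)) → R,
      ∑ π, F π = ∑ π : J' → Equiv.Perm (Fin d), F (π ∘ e) := fun F =>
    (Equiv.sum_comp (Equiv.arrowCongr e.symm (Equiv.refl (Equiv.Perm (Fin d)))) F).symm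
  rw [key]
  refine sum_congr rfl fun π _ => ?_
  congr 1
  exact (Equiv.prod_comp e (fun j => ((((Equiv.Perm.sign (π j) : ℤˣ) : ℤ)) : R))).symm

end Pool.Agent.Helper54.T6
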